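import Pool.Agent.Helper91.KZ.StL

/-! module CHB -/

namespace Pool.Agent.Helper44.KZ

open Pool.Agent.Helper91.KZ Polynomial TensorProduct

universe u

set_option linter.style.haveILetI false

/-- a finite-dimensional algebra embedded in a ring whose nonzero elements are units has the same
property -/
theorem dv_of_inj {M R S : Type u} [Field M] [Ring R] [Algebra M R] [Ring S] [Algebra M S]
    [FiniteDimensional M R] (f : R →ₐ[M] S) (hf : Function.Injective f) (hS : DV S) : DV R := by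
  obtain ⟨h1, h2⟩ := hS
  have hS1 : Nontrivial S := ⟨⟨1, 0, h1⟩⟩
  have hSn : NoZeroDivisors S := by
    constructor
    intro a b hab
    by_cases ha : a = 0
    · exact Or.inl ha
    · right
      obtain ⟨c, hc⟩ := h2 a ha
      have : (↑c⁻¹ : S) * (a * b) = 0 := by rw [hab, mul_zero]
      rw [← hc, ← mul_assoc, Units.inv_mul, one_mul] at this
      exact this
  have hRn : NoZeroDivisors R := hf.noZeroDivisors f (map_zero f) (map_mul f)
  have hR1 : Nontrivial R := f.domain_nontrivial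
  have hD : IsDomain R := NoZeroDivisors.to_isDomain R
  refine ⟨one_ne_zero, fun x hx => ?_⟩
  have hinj : Function.Injective (LinearMap.mulLeft M x) := by
    intro a b hab
    exact mul_left_cancel₀ hx hab
  have hsur : Function.Surjective (LinearMap.mulLeft M x) :=
    LinearMap.surjective_of_injective hinj
  obtain ⟨y, hy⟩ := hsur 1
  have hy' : x * y = 1 := hy
  have hyx : y * x = 1 := by
    have : x * (y * x) = x * 1 := by rw [← mul_assoc, hy', one_mul, mul_one]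
    exact mul_left_cancel₀ hx this
  exact ⟨⟨x, y, hy', hyx⟩, rfl⟩

theorem dv_congr {R S : Type u} [Ring R] [Ring S] (e : R ≃+* S) (hS : DV S) : DV R := by
  obtain ⟨h1, h2⟩ := hS
  refine ⟨fun h => h1 ?_, fun x hx => ?_⟩
  · rw [← map_one e, h, map_zero]
  · have hx' : e x ≠ 0 := by
      intro h
      apply hx
      exact e.injective (by rw [h, map_zero])
    have := (h2 (e x) hx').map e.symm
    simpa using this

theorem kz_CHB (hSKN : ST_SKN.{u}) (hKZ0 : ST_KZ0.{u}) (hDVC : ST_DVC.{u}) (hCYD : ST_CYD.{u})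
    (hCYB : ST_CYB.{u}) (hIDD : ST_IDD.{u}) (hTS : ST_TS.{u}) (hKTN : ST_KTN.{u})
    (hKPD : ST_KPD.{u}) (hCS2 : ST_CS2.{u}) (hMMI : ST_MMI.{u}) (hUNI : ST_UNI.{u})
    (hDVS : ST_DVS.{u}) : ST_CHB.{u} := by
  intro E K D T _ _ _ _ _ _ _ _ _ _ p j hp hD hcys hcd hdv hk hT ⟨i⟩
  have hpp : 0 < p := hp.pos
  haveI : FiniteDimensional E T := FiniteDimensional.of_finrank_pos (by rw [hT]; exact hpp)
  -- a nontrivial automorphism
  obtain ⟨σ, hσ⟩ : ∃ σ : T ≃ₐ[E] T, σ ≠ 1 := by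
    have hc : Nat.card (T ≃ₐ[E] T) = p := by
      rw [IsGalois.card_aut_eq_finrank, hT]
    haveI : Finite (T ≃ₐ[E] T) := Nat.finite_of_card_ne_zero (by rw [hc]; exact hpp.ne')
    haveI : Nontrivial (T ≃ₐ[E] T) := Finite.one_lt_card_iff_nontrivial.mp (by rw [hc]; exact hp.one_lt)
    exact exists_ne 1
  obtain ⟨y, hy0, hy⟩ := hSKN E D T i (i.comp σ.toAlgHom) hD
  obtain ⟨d⟩ := hKZ0 E T D p σ i y hp hT hσ hD hy0 (fun t => hy t)
  haveI := d.fin
  haveI : PerfectField d.Z := Algebra.IsAlgebraic.perfectField (K := E) (L := d.Z)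
  haveI : Uncountable d.Z := (algebraMap E d.Z).injective.uncountable
  -- C
  obtain ⟨C, iC1, iC2, ⟨eC⟩⟩ := (hDVS d.Z).2.2.2 (d.K ⊗[d.Z] d.Δ') d.dv
  letI := iC1
  letI := iC2
  have hmi : MI d.Z (d.Z ⊗[E] D) C (Module.finrank E d.Z) := by
    have h1 := d.mi
    have h2 : MI d.Z (d.K ⊗[d.Z] d.Δ') C 1 := (hDVS d.Z).2.2.1 _ _ ⟨eC⟩
    have h3 := (hMMI d.Z d.Z).1 (d.Z ⊗[E] D) (d.K ⊗[d.Z] d.Δ') C _ _ h1 h2
    rwa [mul_one] at h3
  have hcor : Cor d.Z (d.Z ⊗[E] D) C (Module.finrank E d.Z) := by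
    obtain ⟨r, Δ, iΔ1, iΔ2, ⟨hda, hmi2⟩, hr⟩ := hTS E D d.Z hD
    letI := iΔ1
    letI := iΔ2
    obtain ⟨_, ⟨e⟩⟩ := hUNI d.Z (d.Z ⊗[E] D) Δ C _ _ hmi2 hmi
    refine ⟨⟨fun x => ?_, fun x hx => ?_⟩, hmi⟩
    · have := hda.alg (e.symm x)
      have h := this.map e.toAlgHom
      simpa using h
    · obtain ⟨c, hc⟩ := hda.cen (e.symm x) (fun y => by
        apply e.injective
        simp [hx])
      refine ⟨c, ?_⟩
      have := congrArg e hc
      simpa using this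
  haveI : FiniteDimensional E K := hcd.2.2.1
  obtain ⟨hdv1, hdv2⟩ := hDVC E K D d.Z C hD hdv d.ez hcor
  -- K_Z
  obtain ⟨KZ, iK1, iK2, ⟨eK⟩⟩ := (hDVS d.Z).2.2.2 (d.Z ⊗[E] K) hdv2
  letI := iK1
  letI := iK2
  have hmiK : MI d.Z (d.Z ⊗[E] K) KZ 1 := (hDVS d.Z).2.2.1 _ _ ⟨eK⟩
  have hcysK : CYS p d.Z j KZ := hCYB E K d.Z KZ p j hp hcys hmiK
  have hcdK : CD d.Z KZ (p ^ j) := by
    obtain ⟨_, n', hn', h⟩ := hIDD E K d.Z KZ (p ^ j) 1 hcd hmiK
    rw [one_mul] at hn'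
    rw [hn']
    exact h
  haveI : FiniteDimensional d.Z KZ := hcdK.2.2.1
  haveI : FiniteDimensional d.Z d.K := d.cd.2.2.1
  -- the big division ring
  have e1 : KZ ⊗[d.Z] (d.K ⊗[d.Z] d.Δ') ≃ₐ[d.Z] (d.Z ⊗[E] K) ⊗[d.Z] C :=
    Algebra.TensorProduct.congr eK.symm eC
  have hdv3 : DV (KZ ⊗[d.Z] (d.K ⊗[d.Z] d.Δ')) := dv_congr e1.toRingEquiv hdv1
  have hdv4 : DV ((KZ ⊗[d.Z] d.K) ⊗[d.Z] d.Δ') :=
    dv_congr (Algebra.TensorProduct.assoc d.Z d.Z d.Z KZ d.K d.Δ').toRingEquiv hdv3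
  have hdv5 : DV (KZ ⊗[d.Z] d.K) :=
    dv_of_inj (Algebra.TensorProduct.includeLeft :
      (KZ ⊗[d.Z] d.K) →ₐ[d.Z] (KZ ⊗[d.Z] d.K) ⊗[d.Z] d.Δ')
      (Algebra.TensorProduct.includeLeft_injective (algebraMap d.Z d.Δ').injective) hdv4
  obtain ⟨K', iK'1, iK'2, ⟨eK'⟩⟩ := (hDVS d.Z).2.2.2 (KZ ⊗[d.Z] d.K) hdv5
  letI := iK'1
  letI := iK'2
  have hcys' : CYS p d.Z (j + 1) K' := by
    letI := d.fT
    letI := d.aT
    exact ⟨KZ, d.K, inferInstance, inferInstance, inferInstance, inferInstance, hcysK, d.cd,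
      ⟨d.T', inferInstance, inferInstance, d.cps.gal, d.cps.deg, ⟨d.i'⟩⟩, ⟨eK'⟩⟩
  have hcd' : CD d.Z K' (p ^ (j + 1)) := hCYD d.Z K' p (j + 1) hp hcys'
  have hdv' : DV (K' ⊗[d.Z] d.Δ') :=
    dv_congr (Algebra.TensorProduct.congr eK'.symm (AlgEquiv.refl : d.Δ' ≃ₐ[d.Z] d.Δ')).toRingEquiv
      hdv4
  refine ⟨d.Z, inferInstance, inferInstance, K', inferInstance, inferInstance, d.Δ', inferInstance,
    inferInstance, d.fin, hcys', hcd', d.da, hdv', fun k hkp => ?_⟩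
  have hcs : CS d.Z d.K := (hCS2 d.Z).2 d.K p d.cd
  have hcorC : Cor d.Z (d.K ⊗[d.Z] d.Δ') C 1 := ⟨hcor.1, (hDVS d.Z).2.2.1 _ _ ⟨eC⟩⟩
  have h1 : ∀ c : C, padicValNat p (dg d.Z c) ≤ 1 + k := by
    intro c
    have h0 := hKTN d.Z d.Δ' d.K C p k p 1 hp d.da hkp hcs d.cd.2.2.2 hcorC c
    haveI : Fact p.Prime := ⟨hp⟩
    simpa using h0
  have h2 : KP p (1 + k) d.Z C := by
    intro c hc
    haveI : Fact p.Prime := ⟨hp⟩
    have hc0 : dg d.Z c ≠ 0 := by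
      have := minpoly.natDegree_pos (hcor.1.alg c)
      exact this.ne'
    have := (padicValNat_dvd_iff_le hc0).mp hc
    have := h1 c
    omega
  have h3 := hKPD E D d.Z C p (1 + k) _ hp hD h2 hcor
  apply hk (padicValNat p (Module.finrank E d.Z) + (1 + k))
  intro x hx
  haveI : Fact p.Prime := ⟨hp⟩
  have hx0 : dg E x ≠ 0 := (minpoly.natDegree_pos (hD.alg x)).ne'
  have := (padicValNat_dvd_iff_le hx0).mp hx
  have := h3 x
  omega

end Pool.Agent.Helper44.KZ
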