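import Pool.Agent.Helper91.KZ.StL

/-! module CYC -/

namespace Pool.Agent.Helper44.KZ

open Pool.Agent.Helper91.KZ Polynomial TensorProduct

universe u

set_option linter.style.haveILetI false

theorem mi_one_of_equiv {M R Δ : Type u} [Field M] [Ring R] [Algebra M R] [Ring Δ] [Algebra M Δ]
    (e : R ≃ₐ[M] Δ) : MI M R Δ 1 := by
  have h : Δ ≃ₐ[M] Matrix (Fin 1) (Fin 1) Δ :=
    { toFun := fun x => Matrix.of fun _ _ => x
      invFun := fun m => m 0 0
      left_inv := fun x => rfl
      right_inv := by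
        intro m
        ext i j
        rw [Subsingleton.elim i 0, Subsingleton.elim j 0]
        rfl
      map_mul' := by
        intro x y
        ext i j
        simp [Matrix.mul_apply]
      map_add' := by
        intro x y
        ext i j
        simp
      commutes' := by
        intro r
        ext i j
        simp [Matrix.algebraMap_matrix_apply, Subsingleton.elim i j] }
  exact ⟨one_pos, ⟨e.trans h⟩⟩

/-- a splitting field of `K` splits the intermediate division algebras -/
theorem split_step (hMMI : ST_MMI.{u}) (hUNI : ST_UNI.{u}) (hCS1 : ST_CS1.{u}) (hCS2 : ST_CS2.{u})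
    (E M N K K' : Type u) [Field E] [Field M] [Field N] [Algebra E M] [Algebra E N]
    [Algebra M N] [IsScalarTower E M N] [PerfectField M] [PerfectField N]
    [DivisionRing K] [Algebra E K] [DivisionRing K'] [Algebra M K'] (s n' k : ℕ)
    (h1 : MI M (M ⊗[E] K) K' s) (hcd : CD M K' k) (h2 : MI N (N ⊗[E] K) N n') :
    ∃ r, MI N (N ⊗[M] K') N r := by
  have h3 := (hMMI E M).2.2.2.2.1 N K K' s h1
  have h4 : CS N (N ⊗[M] K') := (hCS1 M).2 K' N ((hCS2 M).2 K' k hcd)
  obtain ⟨r, m, L, iL1, iL2, hL, hmi, -⟩ := (hCS2 N).1 _ h4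
  letI := iL1
  letI := iL2
  have h5 := (hMMI N N).1 _ _ _ _ _ h3 hmi
  obtain ⟨_, ⟨e⟩⟩ := hUNI N _ _ _ _ _ h5 h2
  have h6 := (hMMI N N).1 _ _ _ _ _ hmi (mi_one_of_equiv e)
  exact ⟨_, h6⟩

/-- the degree divides the degree of a splitting field -/
theorem split_dvd (hIDD : ST_IDD.{u})
    (E N K : Type u) [Field E] [Field N] [Algebra E N] [PerfectField E] [FiniteDimensional E N]
    [DivisionRing K] [Algebra E K] (n r : ℕ)
    (hcd : CD E K n) (h2 : MI N (N ⊗[E] K) N r) : n ∣ Module.finrank E N := by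
  obtain ⟨h3, n', hn', h4⟩ := hIDD E K N N n r hcd h2
  have h5 := h4.2.2.2
  rw [Module.finrank_self] at h5
  have h6 : n' = 1 := by
    have : n' ^ 2 = 1 ^ 2 := by rw [← h5, one_pow]
    exact (Nat.pow_left_injective (n := 2) (by norm_num)) this
  rw [h6, mul_one] at hn'
  rw [hn']
  exact h3

/-- the conclusion of `CYC` -/
def Concl (E K : Type u) [Field E] [DivisionRing K] [Algebra E K] (p : ℕ) : Prop :=
  ∃ (M : Type u) (_ : Field M) (_ : Algebra E M) (K₁ : Type u) (_ : DivisionRing K₁)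
    (_ : Algebra M K₁) (s : ℕ) (T : Type u) (_ : Field T) (_ : Algebra M T),
    FiniteDimensional E M ∧ CD M K₁ p ∧ MI M (M ⊗[E] K) K₁ s ∧ IsGalois M T ∧
    Module.finrank M T = p ∧ Nonempty (T →ₐ[M] K₁)

theorem compose (hMMI : ST_MMI.{u}) (E T K K' : Type u) [Field E] [Field T] [Algebra E T]
    [FiniteDimensional E T] [DivisionRing K] [Algebra E K] [DivisionRing K'] [Algebra T K']
    (p s : ℕ) (h : MI T (T ⊗[E] K) K' s) (hc : Concl T K' p) : Concl E K p := by
  obtain ⟨M, iM1, iM2, K₁, iK1, iK2, s', T', iT1, iT2, hfd, hcd, hmi, hgal, hfr, hne⟩ := hc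
  letI iEM : Algebra E M := Algebra.compHom M (algebraMap E T)
  haveI : IsScalarTower E T M := IsScalarTower.of_algebraMap_eq (fun x => rfl)
  refine ⟨M, iM1, iEM, K₁, iK1, iK2, s * s', T', iT1, iT2, ?_, hcd, ?_, hgal, hfr, hne⟩
  · exact FiniteDimensional.trans E T M
  · have h1 := (hMMI E T).2.2.2.2.1 M K K' s h
    exact (hMMI M M).1 _ _ _ _ _ h1 hmi

theorem claim (hSTP : ST_STP.{u}) (hEMB : ST_EMB.{u})
    (hIDD : ST_IDD.{u}) (hMMI : ST_MMI.{u}) (hUNI : ST_UNI.{u}) (hCS1 : ST_CS1.{u})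
    (hCS2 : ST_CS2.{u}) (p : ℕ) (hp : p.Prime) (t : ℕ) :
    ∀ (E K N : Type u) [Field E] [PerfectField E] [DivisionRing K] [Algebra E K] [Field N]
      [Algebra E N] [FiniteDimensional E N] [IsGalois E N] (n r : ℕ), CD E K n → p ∣ n →
      Module.finrank E N = p ^ t → MI N (N ⊗[E] K) N r → Concl E K p := by
  induction t with
  | zero =>
    intro E K N _ _ _ _ _ _ _ _ n r hcd hpn hfr hmi
    exfalso
    have h1 := split_dvd hIDD E N K n r hcd hmi
    rw [hfr, pow_zero] at h1
    have h2 := hpn.trans h1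
    exact hp.one_lt.ne' (Nat.dvd_one.mp h2)
  | succ t ih =>
    intro E K N _ _ _ _ _ _ _ _ n r hcd hpn hfr hmi
    have htop : (⊤ : IntermediateField E N) ≠ ⊥ := by
      intro h
      have h1 : Module.finrank E N = 1 := by
        rw [← IntermediateField.finrank_top' (F := E) (E := N), h, IntermediateField.finrank_bot]
      rw [hfr] at h1
      have : p ∣ 1 := by
        rw [← h1]
        exact dvd_pow_self p (Nat.succ_ne_zero t)
      exact hp.one_lt.ne' (Nat.dvd_one.mp this)
    obtain ⟨T, -, hTg, hTf⟩ := hSTP E N p (t + 1) hp hfr ⊤ htop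
    haveI : PerfectField T := Algebra.IsAlgebraic.perfectField (K := E) (L := T)
    haveI : PerfectField N := Algebra.IsAlgebraic.perfectField (K := E) (L := N)
    have hcs : CS T (T ⊗[E] K) := (hCS1 E).2 K T ((hCS2 E).2 K n hcd)
    obtain ⟨s1, m, K', iK1, iK2, hcd', hmi', -⟩ := (hCS2 T).1 _ hcs
    letI := iK1
    letI := iK2
    obtain ⟨hs1, n1, hn1, hcd1⟩ := hIDD E K T K' n s1 hcd hmi'
    have hfr2 : Module.finrank T N = p ^ t := by
      have h1 := Module.finrank_mul_finrank E T N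
      rw [hTf, hfr, pow_succ, mul_comm] at h1
      exact Nat.eq_of_mul_eq_mul_right hp.pos h1
    obtain ⟨r', hr'⟩ := split_step hMMI hUNI hCS1 hCS2 E T N K K' s1 r n1 hmi' hcd1 hmi
    by_cases hpn1 : p ∣ n1
    · have h3 : Concl T K' p := ih T K' N n1 r' hcd1 hpn1 hfr2 hr'
      exact compose hMMI E T K K' p s1 hmi' h3
    · rw [hTf] at hs1
      have hs1' : s1 = p := by
        rcases (Nat.dvd_prime hp).mp hs1 with h | h
        · exfalso
          apply hpn1
          rw [h, one_mul] at hn1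
          rwa [hn1] at hpn
        · exact h
      have h4 := split_dvd hIDD T N K' n1 r' hcd1 hr'
      rw [hfr2] at h4
      have h5 : n1 = 1 := by
        obtain ⟨k, -, hk⟩ := (Nat.dvd_prime_pow hp).mp h4
        cases k with
        | zero => simpa using hk
        | succ k =>
          exfalso
          apply hpn1
          rw [hk]
          exact dvd_pow_self p (Nat.succ_ne_zero k)
      have hnp : n = p := by rw [hn1, hs1', h5, mul_one]
      have hne : Nonempty (T →ₐ[E] K) := by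
        apply hEMB E K T K' hcd.1
        rw [hTf, ← hs1']
        exact hmi'
      refine ⟨E, inferInstance, inferInstance, K, inferInstance, inferInstance, 1, T,
        inferInstance, inferInstance, inferInstance, ?_, ?_, hTg, hTf, hne⟩
      · rw [← hnp]
        exact hcd
      · exact mi_one_of_equiv (Algebra.TensorProduct.lid E K)

theorem kz_CYC (hSPL : ST_SPL.{u}) (hSYL : ST_SYL.{u}) (hSTP : ST_STP.{u}) (hEMB : ST_EMB.{u})
    (hIDD : ST_IDD.{u}) (hMMI : ST_MMI.{u}) (hUNI : ST_UNI.{u}) (hCS1 : ST_CS1.{u})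
    (hCS2 : ST_CS2.{u}) : ST_CYC.{u} := by
  intro E K _ _ _ _ p n hp hcd hpn
  obtain ⟨n0, hn0, -, hspl⟩ := hSPL E K ((hCS2 E).2 K n hcd)
  obtain ⟨N, iN1, iN2, iN3, -, hfd, -, hgal, hmi⟩ := hspl E
  letI := iN1
  letI := iN2
  haveI := hfd
  haveI := hgal
  obtain ⟨F', L', -, -, hpF, -, t, ht⟩ := hSYL E N p hp ⊥
  haveI : PerfectField F' := Algebra.IsAlgebraic.perfectField (K := E) (L := F')
  haveI : PerfectField N := Algebra.IsAlgebraic.perfectField (K := E) (L := N)
  have hcs : CS F' (F' ⊗[E] K) := (hCS1 E).2 K F' ((hCS2 E).2 K n hcd)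
  obtain ⟨s1, m, K', iK1, iK2, hcd', hmi', -⟩ := (hCS2 F').1 _ hcs
  letI := iK1
  letI := iK2
  obtain ⟨hs1, n1, hn1, hcd1⟩ := hIDD E K F' K' n s1 hcd hmi'
  obtain ⟨r', hr'⟩ := split_step hMMI hUNI hCS1 hCS2 E F' N K K' s1 n0 n1 hmi' hcd1 hmi
  have hfr2 : Module.finrank F' N = p ^ t := by
    have h1 := Module.finrank_mul_finrank E F' N
    rw [ht] at h1
    exact Nat.eq_of_mul_eq_mul_left Module.finrank_pos h1
  have hpn1 : p ∣ n1 := by
    rw [hn1] at hpn
    rcases hp.dvd_mul.mp hpn with h | h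
    · exact absurd (h.trans hs1) hpF
    · exact h
  exact compose hMMI E F' K K' p s1 hmi'
    (claim hSTP hEMB hIDD hMMI hUNI hCS1 hCS2 p hp t F' K' N n1 r' hcd1 hpn1 hfr2 hr')

end Pool.Agent.Helper44.KZ
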