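import Pool.Agent.Helper91.KZ.StL

/-! module KZ1 -/

namespace Pool.Agent.Helper44.KZ

open Pool.Agent.Helper91.KZ Polynomial TensorProduct

universe u

set_option linter.style.haveILetI false

theorem da_of_equiv {M C Δ : Type u} [Field M] [DivisionRing C] [Algebra M C] [DivisionRing Δ]
    [Algebra M Δ] (e : Δ ≃ₐ[M] C) (hda : DA M Δ) : DA M C := by
  refine ⟨fun x => ?_, fun x hx => ?_⟩
  · have h := (hda.alg (e.symm x)).map e.toAlgHom
    simpa using h
  · obtain ⟨c, hc⟩ := hda.cen (e.symm x) (fun y => by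
      apply e.injective
      simp [hx])
    refine ⟨c, ?_⟩
    have := congrArg e hc
    simpa using this

theorem kp_of_equiv {M C Δ : Type u} [Field M] [Ring C] [Algebra M C] [Ring Δ]
    [Algebra M Δ] (p κ : ℕ) (e : Δ ≃ₐ[M] C) (h : KP p κ M C) : KP p κ M Δ := by
  intro x hx
  apply h (e x)
  unfold dg at hx ⊢
  rwa [minpoly.algEquiv_eq]

theorem kz_KZ1 (hCEN : ST_CEN.{u}) (hKPE : ST_KPE.{u}) (hPFS : ST_PFS.{u}) (hMMI : ST_MMI.{u})
    (hUNI : ST_UNI.{u}) (hDVS : ST_DVS.{u}) (hTS : ST_TS.{u}) : ST_KZ1.{u} := by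
  intro E T Δ _ _ _ _ _ _ _ _ _ p σ i y hp hfr hσ hD hy0 hy hC d
  haveI := d.fin
  haveI := d.cps.fin
  obtain ⟨C, iC1, iC2, j, hj, hj1, hj2, hcor⟩ := hCEN E Δ T i hD
  letI := iC1
  letI := iC2
  have hKPC : KP p 0 T C := hC C _ hcor
  letI iET' : Algebra E d.T' := ((algebraMap d.Z d.T').comp (algebraMap E d.Z)).toAlgebra
  haveI : IsScalarTower E d.Z d.T' := IsScalarTower.of_algebraMap_eq (fun c => rfl)
  letI iTT' : Algebra T d.T' :=
    (d.e.toRingEquiv.toRingHom.comp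
      (Algebra.TensorProduct.includeRight : T →ₐ[E] d.Z ⊗[E] T).toRingHom).toAlgebra
  have hTT' : ∀ t : T, algebraMap T d.T' t = d.e (1 ⊗ₜ t) := fun t => rfl
  haveI : IsScalarTower E T d.T' := IsScalarTower.of_algebraMap_eq (fun c => by
    rw [hTT']
    have h1 : (1 : d.Z) ⊗ₜ[E] (algebraMap E T c) = algebraMap E d.Z c ⊗ₜ[E] (1 : T) := by
      rw [Algebra.algebraMap_eq_smul_one, Algebra.algebraMap_eq_smul_one, TensorProduct.tmul_smul,
        TensorProduct.smul_tmul']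
    rw [h1]
    have h2 : algebraMap E d.Z c ⊗ₜ[E] (1 : T) =
      algebraMap d.Z (d.Z ⊗[E] T) (algebraMap E d.Z c) := rfl
    rw [h2, AlgEquiv.commutes]
    rfl)
  haveI : FiniteDimensional E d.T' := FiniteDimensional.trans E d.Z d.T'
  haveI : FiniteDimensional T d.T' := Module.Finite.of_restrictScalars_finite E T d.T'
  haveI : PerfectField T := Algebra.IsAlgebraic.perfectField (K := E) (L := T)
  haveI : PerfectField d.Z := Algebra.IsAlgebraic.perfectField (K := E) (L := d.Z)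
  haveI : Uncountable T := (algebraMap E T).injective.uncountable
  haveI : Uncountable d.Z := (algebraMap E d.Z).injective.uncountable
  -- the map `T' → C`
  have hex : ∀ x : d.T', ∃ c : C, j c = d.h (d.i' x) := by
    intro x
    rw [← hj2]
    intro m
    rw [← d.hi m, ← map_mul, ← map_mul, ← map_mul, ← map_mul, mul_comm]
  choose g hg using hex
  let G : d.T' →ₐ[T] C :=
    { toFun := g
      map_one' := by
        apply hj
        rw [hg, map_one, map_one, map_one]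
      map_mul' := by
        intro a b
        apply hj
        rw [hg, map_mul, map_mul, map_mul, hg, hg]
      map_zero' := by
        apply hj
        rw [hg, map_zero, map_zero, map_zero]
      map_add' := by
        intro a b
        apply hj
        rw [hg, map_add, map_add, map_add, hg, hg]
      commutes' := by
        intro t
        apply hj
        rw [hg, hj1, hTT', d.hi] }
  have hGinj : Function.Injective G := G.toRingHom.injective
  have hpT : ¬ p ∣ Module.finrank T d.T' := by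
    obtain ⟨θ, hθ⟩ := Field.exists_primitive_element T d.T'
    rw [Field.primitive_element_iff_minpoly_natDegree_eq] at hθ
    have h1 := hKPC (G θ)
    unfold dg at h1
    rw [minpoly.algHom_eq G hGinj, hθ, zero_add, pow_one] at h1
    exact h1
  have hfrZ : Module.finrank E d.Z = Module.finrank T d.T' := by
    have h1 := Module.finrank_mul_finrank E d.Z d.T'
    have h2 := Module.finrank_mul_finrank E T d.T'
    rw [d.cps.deg] at h1
    rw [hfr] at h2
    have h3 : Module.finrank E d.Z * p = Module.finrank T d.T' * p := by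
      rw [h1, ← h2, mul_comm]
    exact Nat.eq_of_mul_eq_mul_right hp.pos h3
  refine ⟨by rw [hfrZ]; exact hpT, ?_⟩
  -- the second part
  obtain ⟨C1, iC3, iC4, ⟨eC⟩⟩ := (hDVS d.Z).2.2.2 (d.K ⊗[d.Z] d.Δ') d.dv
  letI := iC3
  letI := iC4
  have hmi : MI d.Z (d.Z ⊗[E] Δ) C1 (Module.finrank E d.Z) := by
    have h1 := d.mi
    have h2 : MI d.Z (d.K ⊗[d.Z] d.Δ') C1 1 := (hDVS d.Z).2.2.1 _ _ ⟨eC⟩
    have h3 := (hMMI d.Z d.Z).1 _ _ _ _ _ h1 h2
    rwa [mul_one] at h3
  have hDAC1 : DA d.Z C1 := by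
    obtain ⟨r, Δ1, iΔ1, iΔ2, ⟨hda, hmi2⟩, hr⟩ := hTS E Δ d.Z hD
    letI := iΔ1
    letI := iΔ2
    obtain ⟨_, ⟨e⟩⟩ := hUNI d.Z (d.Z ⊗[E] Δ) Δ1 C1 _ _ hmi2 hmi
    exact da_of_equiv e hda
  refine hPFS d.Z d.T' d.K d.Δ' C1 p 0 d.da hDAC1 ⟨d.i'⟩ ⟨eC⟩ ?_
  intro C2 _ _ s hcor2
  have m1 := (hMMI E d.Z).2.2.2.2.1 d.T' Δ C1 _ hmi
  have m2 := (hMMI d.T' d.T').1 _ _ _ _ _ m1 hcor2.2
  have m3 := (hMMI E T).2.2.2.2.1 d.T' Δ C _ hcor.2
  obtain ⟨r, C3, iC5, iC6, hcor3, -⟩ := hTS T C d.T' hcor.1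
  letI := iC5
  letI := iC6
  have m4 := (hMMI d.T' d.T').1 _ _ _ _ _ m3 hcor3.2
  have hK3 := hKPE T C d.T' C3 p 0 r hcor.1 hKPC hcor3
  obtain ⟨_, ⟨e⟩⟩ := hUNI d.T' _ C2 C3 _ _ m2 m4
  exact kp_of_equiv p 0 e hK3

end Pool.Agent.Helper44.KZ
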