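import Pool.Agent.Helper91.KZ.StL

/-! module NOR -/

namespace Pool.Agent.Helper44.KZ

open Pool.Agent.Helper91.KZ Polynomial TensorProduct

universe u

set_option linter.style.haveILetI false

theorem kz_NOR : ST_NOR.{u} := by
  intro E T _ _ _ _ _ p σ a b hp hfr hσ hb hcoh
  obtain ⟨β, hβ0, hβ⟩ := hcoh
  haveI : Fact p.Prime := ⟨hp⟩
  have hcard : Nat.card (T ≃ₐ[E] T) = p := by rw [IsGalois.card_aut_eq_finrank, hfr]
  classical
  have hcardF : Fintype.card (T ≃ₐ[E] T) = p := by rw [← Nat.card_eq_fintype_card, hcard]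
  have hσp : σ ^ p = 1 := by
    rw [← hcard]
    exact pow_card_eq_one'
  have hord : orderOf σ = p := orderOf_eq_prime hσp hσ
  have hinj : Set.InjOn (fun i : ℕ => σ ^ i) (Finset.range p) := by
    intro i hi j hj hij
    rw [Finset.mem_coe, Finset.mem_range] at hi hj
    exact pow_injOn_Iio_orderOf (by rw [Set.mem_Iio, hord]; exact hi)
      (by rw [Set.mem_Iio, hord]; exact hj) hij
  have himg : (Finset.range p).image (fun i : ℕ => σ ^ i) = Finset.univ := by
    apply Finset.eq_univ_of_card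
    rw [Finset.card_image_of_injOn hinj, Finset.card_range, hcardF]
  refine ⟨β σ, hβ0 σ, ?_⟩
  have h1 : ∏ i ∈ Finset.range p, (σ ^ i) (β σ) = algebraMap E T (Algebra.norm E (β σ)) := by
    rw [Algebra.norm_eq_prod_automorphisms, ← himg, Finset.prod_image hinj]
  have h2 : ∏ i ∈ Finset.range p, β (σ ^ (i + 1)) = ∏ i ∈ Finset.range p, β (σ ^ i) := by
    have h3 := Finset.prod_range_succ (fun i => β (σ ^ i)) p
    have h4 := Finset.prod_range_succ' (fun i => β (σ ^ i)) p
    rw [h3] at h4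
    rw [hσp, pow_zero] at h4
    exact (mul_right_cancel₀ (hβ0 1) h4).symm
  have h5 : ∏ i ∈ Finset.range p, β (σ ^ i) ≠ 0 := Finset.prod_ne_zero_iff.mpr fun i _ => hβ0 _
  apply mul_right_cancel₀ h5
  rw [← h1]
  have h6 : (∏ i ∈ Finset.range p, a (σ ^ i) σ) * ∏ i ∈ Finset.range p, β (σ ^ (i + 1)) =
      ((∏ i ∈ Finset.range p, β (σ ^ i)) * ∏ i ∈ Finset.range p, (σ ^ i) (β σ)) *
        ∏ i ∈ Finset.range p, b (σ ^ i) σ := by
    rw [← Finset.prod_mul_distrib, ← Finset.prod_mul_distrib, ← Finset.prod_mul_distrib]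
    refine Finset.prod_congr rfl fun i _ => ?_
    rw [pow_succ, hβ]
  rw [h2] at h6
  rw [h6]
  ring

end Pool.Agent.Helper44.KZ
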