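import Pool.Agent.Helper91.KZ.StL

/-! module NRM -/

namespace Pool.Agent.Helper44.KZ

open Pool.Agent.Helper91.KZ Polynomial TensorProduct

universe u

set_option linter.style.haveILetI false

theorem kz_NRM (hMUL : ST_MUL.{u}) (hNSC : ST_NSC.{u}) : ST_NRM.{u} := by
  intro K D _ _ _ _ p hp hint hkp S hS
  have hw : ∀ x y : D, ∃ w : D, x ≠ 0 → y ≠ 0 → dg K x ∣ dg K w ∧
    dg K y ∣ dg K w ∧ dg K (x * y) ∣ dg K w ∧
    NN K (dg K w) (x * y) = NN K (dg K w) x * NN K (dg K w) y := by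
    intro x y
    by_cases hx : x = 0
    · exact ⟨1, fun h => absurd hx h⟩
    · by_cases hy : y = 0
      · exact ⟨1, fun _ h => absurd hy h⟩
      · obtain ⟨w, hw⟩ := hMUL K D hint x y hx hy
        exact ⟨w, fun _ _ => hw⟩
  choose w hw using hw
  have hpos : ∀ x : D, 0 < dg K x := fun x => minpoly.natDegree_pos (hint x)
  have hnp : ∀ x : D, ¬ p ∣ dg K x := by
    intro x h
    apply hkp x
    simpa using h
  refine ⟨(∏ x ∈ S, dg K x) * ∏ x ∈ S, ∏ y ∈ S, dg K (w x y), ?_, ?_, ?_⟩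
  · apply Nat.mul_pos
    · exact Finset.prod_pos fun x _ => hpos x
    · exact Finset.prod_pos fun x _ => Finset.prod_pos fun y _ => hpos _
  · intro h
    rcases hp.dvd_mul.mp h with h | h
    · obtain ⟨x, _, hx⟩ := (hp.prime.dvd_finsetProd_iff _).mp h
      exact hnp x hx
    · obtain ⟨x, _, hx⟩ := (hp.prime.dvd_finsetProd_iff _).mp h
      obtain ⟨y, _, hy⟩ := (hp.prime.dvd_finsetProd_iff _).mp hx
      exact hnp _ hy
  · intro q hq x hx
    refine ⟨?_, ?_, fun y hy => ?_⟩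
    · exact ((Finset.dvd_prod_of_mem _ hx).trans (dvd_mul_right _ _)).trans hq
    · unfold NN
      apply pow_ne_zero
      apply mul_ne_zero
      · exact pow_ne_zero _ (neg_ne_zero.mpr one_ne_zero)
      · exact minpoly.coeff_zero_ne_zero (hint x) (hS x hx)
    · obtain ⟨h1, h2, h3, h4⟩ := hw x y (hS x hx) (hS y hy)
      have h5 : dg K (w x y) ∣ q := by
        refine Dvd.dvd.trans ?_ hq
        refine Dvd.dvd.trans ?_ (dvd_mul_left _ _)
        exact (Finset.dvd_prod_of_mem (fun y => dg K (w x y)) hy).trans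
          (Finset.dvd_prod_of_mem (fun x => ∏ y ∈ S, dg K (w x y)) hx)
      obtain ⟨r, rfl⟩ := h5
      have hN := (hNSC K D).2.2
      rw [hN _ r x h1, hN _ r y h2, hN _ r (x * y) h3, h4, mul_pow]

end Pool.Agent.Helper44.KZ
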