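import Pool.Agent.Helper91.KZ.StL

/-! module SPL -/

namespace Pool.Agent.Helper44.KZ

open Pool.Agent.Helper91.KZ Polynomial TensorProduct

universe u

set_option linter.style.haveILetI false

theorem spl_mi_one {M R Δ : Type u} [Field M] [Ring R] [Algebra M R] [Ring Δ] [Algebra M Δ]
    (e : R ≃ₐ[M] Δ) : MI M R Δ 1 := by
  have h : Δ ≃ₐ[M] Matrix (Fin 1) (Fin 1) Δ :=
    { toFun := fun x => Matrix.of fun _ _ => x
      invFun := fun m => m 0 0
      left_inv := fun x => rfl
      right_inv := by
        intro m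
        ext i j
        rw [Subsingleton.elim i 0, Subsingleton.elim j 0]
        rfl
      map_mul' := by
        intro x y
        ext i j
        simp [Matrix.mul_apply]
      map_add' := by
        intro x y
        ext i j
        simp
      commutes' := by
        intro r
        ext i j
        simp [Matrix.algebraMap_matrix_apply, Subsingleton.elim i j] }
  exact ⟨one_pos, ⟨e.trans h⟩⟩

theorem spl_aux (hCEN : ST_CEN.{u}) (hGAL : ST_GAL.{u}) (hMMI : ST_MMI.{u}) (k : ℕ) :
    ∀ (E K : Type u) [Field E] [PerfectField E] [Ring K] [Algebra E K], CS E K →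
    Module.finrank E K = k →
    ∃ n : ℕ, 0 < n ∧ Module.finrank E K = n ^ 2 ∧ ∀ (M : Type u) [Field M] [Algebra E M]
      [FiniteDimensional E M], ∃ (N : Type u) (_ : Field N) (_ : Algebra E N) (_ : Algebra M N),
      IsScalarTower E M N ∧ FiniteDimensional E N ∧ FiniteDimensional M N ∧ IsGalois E N ∧
      MI N (N ⊗[E] K) N n := by
  induction k using Nat.strong_induction_on with
  | _ k ih =>
  intro E K _ _ _ _ hcs hk
  haveI := hcs.sim
  haveI := hcs.fin
  haveI : IsArtinianRing K := IsArtinianRing.of_finite E K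
  obtain ⟨r, hr, L, iL1, iL2, hLf, ⟨e⟩⟩ := IsSimpleRing.exists_algEquiv_matrix_divisionRing_finite E K
  letI := iL1
  letI := iL2
  haveI := hLf
  have hr0 : 0 < r := Nat.pos_of_ne_zero hr.out
  have hLcen : ∀ x : L, (∀ y : L, x * y = y * x) → ∃ c : E, algebraMap E L c = x := by
    intro x hx
    have h1 : ∀ y : K, e.symm (Matrix.scalar (Fin r) x) * y = y * e.symm (Matrix.scalar (Fin r) x) := by
      intro y
      apply e.injective
      rw [map_mul, map_mul, e.apply_symm_apply]
      ext i j
      simp [hx]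
    obtain ⟨c, hc⟩ := hcs.cen _ h1
    refine ⟨c, ?_⟩
    have h2 := congrArg e hc
    rw [e.apply_symm_apply, AlgEquiv.commutes] at h2
    have h3 := congrFun (congrFun h2 ⟨0, hr0⟩) ⟨0, hr0⟩
    simpa [Matrix.algebraMap_matrix_apply] using h3
  have hLDA : DA E L := ⟨fun x => Algebra.IsIntegral.isIntegral x, hLcen⟩
  have hKL : Module.finrank E K = r * r * Module.finrank E L := by
    rw [e.toLinearEquiv.finrank_eq, Module.finrank_matrix]
    simp
  have hmiKL : MI E K L r := ⟨hr0, ⟨e⟩⟩
  by_cases hL1 : Module.finrank E L = 1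
  · -- L = E
    have hbij : Function.Bijective (algebraMap E L) := by
      refine ⟨(algebraMap E L).injective, fun x => ?_⟩
      obtain ⟨c, hc⟩ := (finrank_eq_one_iff_of_nonzero' (1 : L) one_ne_zero).mp hL1 x
      exact ⟨c, by rw [Algebra.algebraMap_eq_smul_one, hc]⟩
    have eL : E ≃ₐ[E] L := AlgEquiv.ofBijective (Algebra.ofId E L) hbij
    refine ⟨r, hr0, by rw [hKL, hL1, mul_one, sq], fun M _ _ _ => ?_⟩
    obtain ⟨N, iN1, iN2, iN3, h1, h2, h3, h4, -⟩ := hGAL E M E
    letI := iN1
    letI := iN2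
    letI := iN3
    refine ⟨N, iN1, iN2, iN3, h1, h2, h3, h4, ?_⟩
    have h5 := (hMMI E N).2.1 K L r hmiKL
    have h6 : N ⊗[E] L ≃ₐ[N] N :=
      (Algebra.TensorProduct.congr (AlgEquiv.refl : N ≃ₐ[N] N) eL.symm).trans
        (Algebra.TensorProduct.rid E N N)
    have h7 := (hMMI N N).1 _ _ _ _ _ h5 (spl_mi_one h6)
    rwa [mul_one] at h7
  · have hLpos : 0 < Module.finrank E L := Module.finrank_pos
    obtain ⟨x, hx⟩ : ∃ x : L, ∀ c : E, algebraMap E L c ≠ x := by
      by_contra hcon
      push Not at hcon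
      apply hL1
      rw [finrank_eq_one_iff_of_nonzero' (1 : L) one_ne_zero]
      intro w
      obtain ⟨c, hc⟩ := hcon w
      exact ⟨c, by rw [← Algebra.algebraMap_eq_smul_one, hc]⟩
    have hxint : IsIntegral E x := hLDA.alg x
    have hirr : Irreducible (minpoly E x) := minpoly.irreducible hxint
    haveI : Fact (Irreducible (minpoly E x)) := ⟨hirr⟩
    let M₁ : Type u := AdjoinRoot (minpoly E x)
    haveI : FiniteDimensional E (AdjoinRoot (minpoly E x)) :=
      (AdjoinRoot.powerBasis hirr.ne_zero).finite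
    let i : AdjoinRoot (minpoly E x) →ₐ[E] L :=
      Ideal.Quotient.liftₐ (Ideal.span {minpoly E x}) (aeval x) (by
        intro a ha
        rw [Ideal.mem_span_singleton] at ha
        obtain ⟨b, rfl⟩ := ha
        rw [map_mul, minpoly.aeval, zero_mul])
    have hm : Module.finrank E (AdjoinRoot (minpoly E x)) = (minpoly E x).natDegree := by
      rw [(AdjoinRoot.powerBasis hirr.ne_zero).finrank, AdjoinRoot.powerBasis_dim]
    have hm1 : 1 < (minpoly E x).natDegree := by
      have h1 : 0 < (minpoly E x).natDegree := minpoly.natDegree_pos hxint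
      have h2 : (minpoly E x).natDegree ≠ 1 := by
        intro h
        obtain ⟨c, hc⟩ := minpoly.natDegree_eq_one_iff.mp h
        exact hx c hc
      omega
    obtain ⟨C, iC1, iC2, -, -, -, -, hCcor⟩ := hCEN E L (AdjoinRoot (minpoly E x)) i hLDA
    letI := iC1
    letI := iC2
    obtain ⟨hm0, ⟨eC⟩⟩ := hCcor.2
    have hfr : Module.finrank E L = (minpoly E x).natDegree * (minpoly E x).natDegree *
        Module.finrank (AdjoinRoot (minpoly E x)) C := by
      have h1 : Module.finrank (AdjoinRoot (minpoly E x)) (AdjoinRoot (minpoly E x) ⊗[E] L) =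
          Module.finrank E L := Module.finrank_baseChange
      rw [← h1, eC.toLinearEquiv.finrank_eq, Module.finrank_matrix, ← hm]
      simp
    have hCpos : 0 < Module.finrank (AdjoinRoot (minpoly E x)) C := by
      rcases Nat.eq_zero_or_pos (Module.finrank (AdjoinRoot (minpoly E x)) C) with h | h
      · rw [h, mul_zero] at hfr
        omega
      · exact h
    haveI : FiniteDimensional (AdjoinRoot (minpoly E x)) C := FiniteDimensional.of_finrank_pos hCpos
    haveI : PerfectField (AdjoinRoot (minpoly E x)) :=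
      Algebra.IsAlgebraic.perfectField (K := E) (L := AdjoinRoot (minpoly E x))
    have hCcs : CS (AdjoinRoot (minpoly E x)) C := ⟨inferInstance, inferInstance, hCcor.1.cen⟩
    have hlt : Module.finrank (AdjoinRoot (minpoly E x)) C < k := by
      rw [← hk, hKL, hfr]
      have h1 : 1 ≤ r * r := Nat.one_le_iff_ne_zero.mpr (by positivity)
      have h2 : 1 < (minpoly E x).natDegree * (minpoly E x).natDegree := by nlinarith
      calc Module.finrank (AdjoinRoot (minpoly E x)) C
          < (minpoly E x).natDegree * (minpoly E x).natDegree *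
            Module.finrank (AdjoinRoot (minpoly E x)) C := by nlinarith
        _ ≤ _ := Nat.le_mul_of_pos_left _ (by positivity)
    obtain ⟨n1, hn1, hn1sq, hspl⟩ := ih _ hlt (AdjoinRoot (minpoly E x)) C hCcs rfl
    refine ⟨r * ((minpoly E x).natDegree * n1), by positivity, ?_, ?_⟩
    · rw [hKL, hfr, hn1sq]
      ring
    intro M _ _ _
    obtain ⟨N0, iN1, iN2, iN3, h1, h2, h3, h4, ⟨φ⟩⟩ := hGAL E M (AdjoinRoot (minpoly E x))
    letI := iN1
    letI := iN2
    letI := iN3
    haveI := h1
    haveI := h2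
    letI iM1N0 : Algebra (AdjoinRoot (minpoly E x)) N0 := φ.toRingHom.toAlgebra
    haveI : IsScalarTower E (AdjoinRoot (minpoly E x)) N0 :=
      IsScalarTower.of_algebraMap_eq (fun c => (φ.commutes c).symm)
    haveI : FiniteDimensional (AdjoinRoot (minpoly E x)) N0 :=
      Module.Finite.of_restrictScalars_finite E (AdjoinRoot (minpoly E x)) N0
    obtain ⟨N1, jN1, jN2, jN3, g1, g2, g3, g4, g5⟩ := hspl N0
    letI := jN1
    letI := jN2
    letI := jN3
    haveI := g1
    haveI := g2
    letI iEN1 : Algebra E N1 :=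
      ((algebraMap (AdjoinRoot (minpoly E x)) N1).comp
        (algebraMap E (AdjoinRoot (minpoly E x)))).toAlgebra
    haveI : IsScalarTower E (AdjoinRoot (minpoly E x)) N1 :=
      IsScalarTower.of_algebraMap_eq (fun c => rfl)
    haveI : FiniteDimensional E N1 := FiniteDimensional.trans E (AdjoinRoot (minpoly E x)) N1
    obtain ⟨N2, kN1, kN2, kN3, f1, f2, f3, f4, -⟩ := hGAL E N1 E
    letI := kN1
    letI := kN2
    letI := kN3
    haveI := f1
    haveI := f2
    letI iM1N2 : Algebra (AdjoinRoot (minpoly E x)) N2 :=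
      ((algebraMap N1 N2).comp (algebraMap (AdjoinRoot (minpoly E x)) N1)).toAlgebra
    haveI : IsScalarTower (AdjoinRoot (minpoly E x)) N1 N2 :=
      IsScalarTower.of_algebraMap_eq (fun c => rfl)
    haveI : IsScalarTower E (AdjoinRoot (minpoly E x)) N2 :=
      IsScalarTower.of_algebraMap_eq (fun c => by
        rw [IsScalarTower.algebraMap_apply E N1 N2]
        rfl)
    letI iMN2 : Algebra M N2 :=
      (((algebraMap N1 N2).comp (algebraMap N0 N1)).comp (algebraMap M N0)).toAlgebra
    haveI hEMN2 : IsScalarTower E M N2 :=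
      IsScalarTower.of_algebraMap_eq (fun c => by
        have q1 : algebraMap E N2 c = algebraMap N1 N2 (algebraMap E N1 c) :=
          IsScalarTower.algebraMap_apply E N1 N2 c
        have q2 : algebraMap E N1 c = algebraMap N0 N1 (algebraMap E N0 c) := by
          have q3 : algebraMap E N1 c = algebraMap (AdjoinRoot (minpoly E x)) N1
            (algebraMap E (AdjoinRoot (minpoly E x)) c) := rfl
          rw [q3, IsScalarTower.algebraMap_apply (AdjoinRoot (minpoly E x)) N0 N1,
            ← IsScalarTower.algebraMap_apply E (AdjoinRoot (minpoly E x)) N0]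
        rw [q1, q2, IsScalarTower.algebraMap_apply E M N0]
        rfl)
    refine ⟨N2, kN1, kN2, iMN2, hEMN2, f2, Module.Finite.of_restrictScalars_finite E M N2, f4, ?_⟩
    have m1 := (hMMI E N2).2.1 K L r hmiKL
    have m2 := (hMMI E (AdjoinRoot (minpoly E x))).2.2.2.2.1 N2 L C _ hCcor.2
    have m3 := (hMMI (AdjoinRoot (minpoly E x)) N1).2.2.2.2.1 N2 C N1 n1 g5
    have m4 := spl_mi_one (Algebra.TensorProduct.rid N1 N2 N2)
    have m5 := (hMMI N2 N2).1 _ _ _ _ _ m3 m4
    have m6 := (hMMI N2 N2).1 _ _ _ _ _ m2 m5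
    have m7 := (hMMI N2 N2).1 _ _ _ _ _ m1 m6
    rwa [mul_one, hm] at m7

theorem kz_SPL (hCEN : ST_CEN.{u}) (hGAL : ST_GAL.{u}) (hMMI : ST_MMI.{u}) : ST_SPL.{u} := by
  intro E K _ _ _ _ hcs
  exact spl_aux hCEN hGAL hMMI _ E K hcs rfl

end Pool.Agent.Helper44.KZ
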