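import Pool.Agent.Helper91.KZ.StL

/-! module SPT -/

namespace Pool.Agent.Helper44.KZ

open Pool.Agent.Helper91.KZ Polynomial TensorProduct

universe u

set_option linter.style.haveILetI false

theorem spt_mi_one {M R Δ : Type u} [Field M] [Ring R] [Algebra M R] [Ring Δ] [Algebra M Δ]
    (e : R ≃ₐ[M] Δ) : MI M R Δ 1 := by
  have h : Δ ≃ₐ[M] Matrix (Fin 1) (Fin 1) Δ :=
    { toFun := fun x => Matrix.of fun _ _ => x
      invFun := fun m => m 0 0
      left_inv := fun x => rfl
      right_inv := by
        intro m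
        ext i j
        rw [Subsingleton.elim i 0, Subsingleton.elim j 0]
        rfl
      map_mul' := by
        intro x y
        ext i j
        simp [Matrix.mul_apply]
      map_add' := by
        intro x y
        ext i j
        simp
      commutes' := by
        intro r
        ext i j
        simp [Matrix.algebraMap_matrix_apply, Subsingleton.elim i j] }
  exact ⟨one_pos, ⟨e.trans h⟩⟩

theorem kz_SPT (hCEN : ST_CEN.{u}) (hMMI : ST_MMI.{u}) : ST_SPT.{u} := by
  intro E K T _ _ _ _ _ _ hcd ⟨i⟩
  obtain ⟨C, iC1, iC2, -, -, -, -, hcor⟩ := hCEN E K T i hcd.1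
  letI := iC1
  letI := iC2
  obtain ⟨hn0, ⟨e⟩⟩ := hcor.2
  have h1 : Module.finrank T (T ⊗[E] K) = Module.finrank E K := Module.finrank_baseChange
  rw [e.toLinearEquiv.finrank_eq, Module.finrank_matrix, hcd.2.2.2] at h1
  simp only [Fintype.card_fin] at h1
  have h2 : Module.finrank T C = 1 := by
    have h3 : Module.finrank E T * Module.finrank E T * Module.finrank T C =
        Module.finrank E T * Module.finrank E T * 1 := by
      rw [h1, mul_one, sq]
    exact Nat.eq_of_mul_eq_mul_left (by positivity) h3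
  have hbij : Function.Bijective (algebraMap T C) := by
    refine ⟨(algebraMap T C).injective, fun x => ?_⟩
    obtain ⟨c, hc⟩ := (finrank_eq_one_iff_of_nonzero' (1 : C) one_ne_zero).mp h2 x
    exact ⟨c, by rw [Algebra.algebraMap_eq_smul_one, hc]⟩
  have eC : T ≃ₐ[T] C := AlgEquiv.ofBijective (Algebra.ofId T C) hbij
  have m1 : MI T (T ⊗[E] K) T (Module.finrank E T) := by
    have m2 := (hMMI T T).1 _ _ _ _ _ hcor.2 (spt_mi_one eC.symm)
    rwa [mul_one] at m2
  refine ⟨m1, fun N _ _ _ _ => ?_⟩
  have m3 := (hMMI E T).2.2.2.2.1 N K T _ m1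
  have m4 := spt_mi_one (Algebra.TensorProduct.rid T N N)
  have m5 := (hMMI N N).1 _ _ _ _ _ m3 m4
  rwa [mul_one] at m5

end Pool.Agent.Helper44.KZ
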