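import Pool.Agent.Helper91.KZ.StL

/-! module TWC -/

namespace Pool.Agent.Helper44.KZ

open Pool.Agent.Helper91.KZ Polynomial TensorProduct

universe u

set_option linter.style.haveILetI false

theorem tw_faith {E N X : Type u} [Field E] [Field N] [Algebra E N] [Ring X] [Algebra E X]
    (T : TW E N X) (b c : T.B) (h : ∀ v : T.V, b • v = c • v) : b = c := by
  haveI := T.nt
  obtain ⟨v, hv⟩ := exists_ne (0 : T.V)
  have h1 : (b - c) • v = 0 := by rw [sub_smul, h, sub_self]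
  rcases smul_eq_zero.mp h1 with h2 | h2
  · exact sub_eq_zero.mp h2
  · exact absurd h2 hv

theorem tw_symm {E N X : Type u} [Field E] [Field N] [Algebra E N] [Ring X] [Algebra E X]
    (T : TW E N X) (g : N ≃ₐ[E] N) (S : T.V ≃+ T.V) (h1 : ∀ (n : N) v, S (n • v) = g n • S v)
    (h2 : ∀ (x : X) v, S (x • v) = x • S v) :
    (∀ (n : N) v, S.symm (n • v) = g.symm n • S.symm v) ∧
    (∀ (x : X) v, S.symm (x • v) = x • S.symm v) := by
  refine ⟨fun n v => ?_, fun x v => ?_⟩
  · apply S.injective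
    rw [h1, S.apply_symm_apply, S.apply_symm_apply, g.apply_symm_apply]
  · apply S.injective
    rw [h2, S.apply_symm_apply, S.apply_symm_apply]

/-- conjugation by a semilinear bijection -/
theorem tw_conj {E N X : Type u} [Field E] [Field N] [Algebra E N] [Ring X] [Algebra E X]
    (T : TW E N X) (g : N ≃ₐ[E] N) (S : T.V ≃+ T.V) (h1 : ∀ (n : N) v, S (n • v) = g n • S v)
    (h2 : ∀ (x : X) v, S (x • v) = x • S v) (b : T.B) :
    ∃ c : T.B, ∀ v, S (b • v) = c • S v := by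
  obtain ⟨s1, s2⟩ := tw_symm T g S h1 h2
  let f : T.V →+ T.V :=
    { toFun := fun v => S (b • S.symm v)
      map_zero' := by simp
      map_add' := by intro v w; simp [smul_add] }
  have hf : ∀ v, f v = S (b • S.symm v) := fun v => rfl
  obtain ⟨c, hc⟩ := T.full f (by
    intro n v
    rw [hf, hf, s1, ← T.nb, h1, g.apply_symm_apply]) (by
    intro x v
    rw [hf, hf, s2, ← T.xb, h2])
  refine ⟨c, fun v => ?_⟩
  rw [← hc, hf, S.symm_apply_apply]

theorem tw_theta {E N X : Type u} [Field E] [Field N] [Algebra E N] [Ring X] [Algebra E X]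
    (T : TW E N X) (g : N ≃ₐ[E] N) (S : T.V ≃+ T.V) (h1 : ∀ (n : N) v, S (n • v) = g n • S v)
    (h2 : ∀ (x : X) v, S (x • v) = x • S v) :
    ∃ θ : T.B ≃+* T.B, (∀ b v, S (b • v) = θ b • S v) ∧
      ∀ n : N, θ (algebraMap N T.B n) = algebraMap N T.B (g n) := by
  obtain ⟨s1, s2⟩ := tw_symm T g S h1 h2
  choose θ hθ using tw_conj T g S h1 h2
  have hf : ∀ b c : T.B, (∀ v, b • S v = c • S v) → b = c := by
    intro b c h
    apply tw_faith T b c
    intro v
    have := h (S.symm v)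
    rwa [S.apply_symm_apply] at this
  let F : T.B →+* T.B :=
    { toFun := θ
      map_one' := by
        apply hf
        intro v
        rw [← hθ, one_smul, one_smul]
      map_mul' := by
        intro b c
        apply hf
        intro v
        rw [← hθ, mul_smul, hθ, hθ, mul_smul]
      map_zero' := by
        apply hf
        intro v
        rw [← hθ, zero_smul, zero_smul, map_zero]
      map_add' := by
        intro b c
        apply hf
        intro v
        rw [← hθ, add_smul, map_add, hθ, hθ, add_smul] }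
  have hF : ∀ b, F b = θ b := fun b => rfl
  have hbij : Function.Bijective F := by
    refine ⟨F.injective, fun c => ?_⟩
    obtain ⟨b, hb⟩ := tw_conj T g.symm S.symm s1 s2 c
    refine ⟨b, ?_⟩
    rw [hF]
    apply hf
    intro v
    rw [← hθ]
    have := hb (S v)
    rw [S.symm_apply_apply] at this
    rw [← this, S.apply_symm_apply]
  refine ⟨RingEquiv.ofBijective F hbij, fun b v => ?_, fun n => ?_⟩
  · exact hθ b v
  · change θ (algebraMap N T.B n) = _
    apply hf
    intro v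
    rw [← hθ, T.bn, h1, T.bn]

theorem kz_TWC (hTWI : ST_TWI.{u}) (hTWB : ST_TWB.{u}) (hNRM : ST_NRM.{u}) (hNSC : ST_NSC.{u}) :
    ST_TWC.{u} := by
  intro E N X Δ _ _ _ _ _ _ _ _ _ _ T T' a r p hcor hp hkp ha hU
  obtain ⟨φ, φ1, φ2⟩ := hTWI E N X Δ r T T' hcor
  have ψ1 : ∀ (n : N) v, φ.symm (n • v) = n • φ.symm v := by
    intro n v
    apply φ.injective
    rw [φ1, φ.apply_symm_apply, φ.apply_symm_apply]
  have ψ2 : ∀ (x : X) v, φ.symm (x • v) = x • φ.symm v := by
    intro n v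
    apply φ.injective
    rw [φ2, φ.apply_symm_apply, φ.apply_symm_apply]
  obtain ⟨-, -, hDA, hKPB, hU0⟩ := hTWB E N X Δ r T hcor
  let S : (N ≃ₐ[E] N) → (T.V ≃+ T.V) := fun g => φ.symm.trans ((T'.R g).trans φ)
  have hS : ∀ g v, S g v = φ (T'.R g (φ.symm v)) := fun g v => rfl
  have hS1 : ∀ g (n : N) v, S g (n • v) = g n • S g v := by
    intro g n v
    rw [hS, hS, ψ1, T'.rn, φ1]
  have hS2 : ∀ g (x : X) v, S g (x • v) = x • S g v := by
    intro g n v
    rw [hS, hS, ψ2, T'.rx, φ2]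
  have hSS : ∀ g h v, S g (S h v) = a g h • S (g * h) v := by
    intro g h v
    rw [hS, hS, hS, φ.symm_apply_apply, T'.co, hU, T'.bn, φ1]
  have hb : ∀ g, ∃ b : T.B, ∀ v, T.R g v = b • S g v := by
    intro g
    obtain ⟨s1, s2⟩ := tw_symm T g (S g) (hS1 g) (hS2 g)
    obtain ⟨b, hb⟩ := T.full ((T.R g).toAddMonoidHom.comp (S g).symm.toAddMonoidHom) (by
      intro n v
      change T.R g ((S g).symm (n • v)) = n • T.R g ((S g).symm v)
      rw [s1, T.rn, g.apply_symm_apply]) (by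
      intro x v
      change T.R g ((S g).symm (x • v)) = x • T.R g ((S g).symm v)
      rw [s2, T.rx])
    refine ⟨b, fun v => ?_⟩
    rw [← hb]
    change T.R g v = T.R g ((S g).symm (S g v))
    rw [AddEquiv.symm_apply_apply]
  choose b hb using hb
  have hb0 : ∀ g, b g ≠ 0 := by
    intro g h
    haveI := T.nt
    obtain ⟨v, hv⟩ := exists_ne (0 : T.V)
    apply hv
    apply (T.R g).injective
    rw [hb, h, zero_smul, map_zero]
  choose θ hθ1 hθ2 using fun g => tw_theta T g (S g) (hS1 g) (hS2 g)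
  have hid : ∀ g h, T.U g h * b (g * h) = b g * θ g (b h) * algebraMap N T.B (a g h) := by
    intro g h
    apply tw_faith T
    intro w
    obtain ⟨v, rfl⟩ := (S (g * h)).surjective w
    rw [mul_smul, ← hb, ← T.co, hb h, hb g, hθ1, hSS, mul_smul, mul_smul, T.bn]
  haveI : Finite (N ≃ₐ[E] N) := inferInstance
  let A1 : Set T.B := Set.range fun x : (N ≃ₐ[E] N) × (N ≃ₐ[E] N) => T.U x.1 x.2
  let A2 : Set T.B := Set.range fun x : (N ≃ₐ[E] N) => b x
  let A3 : Set T.B := Set.range fun x : (N ≃ₐ[E] N) × (N ≃ₐ[E] N) => θ x.1 (b x.2)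
  let A4 : Set T.B := Set.range fun x : (N ≃ₐ[E] N) × (N ≃ₐ[E] N) => b x.1 * θ x.1 (b x.2)
  let A5 : Set T.B := Set.range fun x : (N ≃ₐ[E] N) × (N ≃ₐ[E] N) => algebraMap N T.B (a x.1 x.2)
  have hfin : (A1 ∪ A2 ∪ A3 ∪ A4 ∪ A5).Finite :=
    ((((Set.finite_range _).union (Set.finite_range _)).union (Set.finite_range _)).union
      (Set.finite_range _)).union (Set.finite_range _)
  have hθ0 : ∀ g h, θ g (b h) ≠ 0 := by
    intro g h h1
    exact hb0 h ((θ g).injective (by rw [h1, map_zero]))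
  have hne : ∀ x ∈ hfin.toFinset, x ≠ 0 := by
    intro x hx
    rw [Set.Finite.mem_toFinset] at hx
    rcases hx with (((⟨y, rfl⟩ | ⟨y, rfl⟩) | ⟨y, rfl⟩) | ⟨y, rfl⟩) | ⟨y, rfl⟩
    · exact hU0 _ _
    · exact hb0 _
    · exact hθ0 _ _
    · exact mul_ne_zero (hb0 _) (hθ0 _ _)
    · intro h
      exact ha y.1 y.2 ((algebraMap N T.B).injective (by rw [map_zero]; exact h))
  obtain ⟨q₀, hq0, hpq, hq⟩ := hNRM N T.B p hp hDA.alg (hKPB p 0 hkp) hfin.toFinset hne
  refine ⟨q₀, hq0, hpq, fun q hqq _ => ?_⟩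
  have hm := hq q hqq
  have m1 : ∀ g h, T.U g h ∈ hfin.toFinset := by
    intro g h
    rw [Set.Finite.mem_toFinset]
    exact Or.inl (Or.inl (Or.inl (Or.inl ⟨(g, h), rfl⟩)))
  have m2 : ∀ g, b g ∈ hfin.toFinset := by
    intro g
    rw [Set.Finite.mem_toFinset]
    exact Or.inl (Or.inl (Or.inl (Or.inr ⟨g, rfl⟩)))
  have m3 : ∀ g h, θ g (b h) ∈ hfin.toFinset := by
    intro g h
    rw [Set.Finite.mem_toFinset]
    exact Or.inl (Or.inl (Or.inr ⟨(g, h), rfl⟩))
  have m4 : ∀ g h, b g * θ g (b h) ∈ hfin.toFinset := by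
    intro g h
    rw [Set.Finite.mem_toFinset]
    exact Or.inl (Or.inr ⟨(g, h), rfl⟩)
  have m5 : ∀ g h, algebraMap N T.B (a g h) ∈ hfin.toFinset := by
    intro g h
    rw [Set.Finite.mem_toFinset]
    exact Or.inr ⟨(g, h), rfl⟩
  refine ⟨fun g => NN N q (b g), fun g => (hm _ (m2 g)).2.1, fun g h => ?_⟩
  have e1 := (hm _ (m1 g h)).2.2 _ (m2 (g * h))
  have e2 := (hm _ (m4 g h)).2.2 _ (m5 g h)
  have e3 := (hm _ (m2 g)).2.2 _ (m3 g h)
  have e4 := ((hNSC N T.B).2.1 (θ g) g.toRingEquiv (fun n => hθ2 g n) (b h)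
    (hDA.alg _)).2 q
  have e5 := (hNSC N T.B).1 q (a g h)
  have e6 : g.toRingEquiv (NN N q (b h)) = g (NN N q (b h)) := rfl
  change NN N q (T.U g h) * NN N q (b (g * h)) = NN N q (b g) * g (NN N q (b h)) * a g h ^ q
  rw [← e1, hid, e2, e3, e4, e5, e6]

end Pool.Agent.Helper44.KZ
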