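import Pool.Agent.Helper91.KZ.StL

/-! module TWR -/

namespace Pool.Agent.Helper44.KZ

open Pool.Agent.Helper91.KZ Polynomial TensorProduct

universe u

set_option linter.style.haveILetI false

theorem twr_act (E M N X : Type u) [Field E] [Field M] [Algebra E M] [Field N]
    [Algebra E N] [Algebra M N] [IsScalarTower E M N] [Ring X] [Algebra E X] (V : Type u)
    [AddCommGroup V] [Module N V] [Module X V]
    (nx : ∀ (n : N) (x : X) (v : V), n • x • v = x • n • v)
    (ee : ∀ (e : E) (v : V), algebraMap E N e • v = algebraMap E X e • v) :
    ∃ ρ : (M ⊗[E] X) →+* Module.End N V, ∀ (m : M) (x : X) (v : V),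
      ρ (m ⊗ₜ x) v = algebraMap M N m • x • v := by
  letI iEV : Module E V := Module.compHom V (algebraMap E N)
  have hE : ∀ (e : E) (v : V), e • v = algebraMap E N e • v := fun _ _ => rfl
  haveI : IsScalarTower E N V := ⟨fun e n v => by rw [hE, Algebra.smul_def, mul_smul]⟩
  haveI : SMulCommClass N E V := ⟨fun n e v => by rw [hE, hE, smul_smul, smul_smul, mul_comm]⟩
  let f : M →ₐ[E] Module.End N V :=
    { (algebraMap N (Module.End N V)).comp (algebraMap M N) with
      commutes' := by
        intro e
        ext v
        change algebraMap M N (algebraMap E M e) • v = e • v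
        rw [hE, ← IsScalarTower.algebraMap_apply] }
  let g : X →ₐ[E] Module.End N V :=
    { toFun := fun x =>
        { toFun := fun v => x • v
          map_add' := smul_add x
          map_smul' := fun n v => (nx n x v).symm }
      map_one' := by
        ext v
        exact one_smul X v
      map_mul' := by
        intro a b
        ext v
        exact mul_smul a b v
      map_zero' := by
        ext v
        exact zero_smul X v
      map_add' := by
        intro a b
        ext v
        exact add_smul a b v
      commutes' := by
        intro e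
        ext v
        exact (ee e v).symm }
  have hcm : ∀ (m : M) (x : X), Commute (f m) (g x) := by
    intro m x
    unfold Commute SemiconjBy
    ext v
    exact nx (algebraMap M N m) x v
  refine ⟨(Algebra.TensorProduct.lift f g hcm).toRingHom, fun m x v => ?_⟩
  have key : (Algebra.TensorProduct.lift f g hcm) (m ⊗ₜ x) = f m * g x :=
    Algebra.TensorProduct.lift_tmul f g hcm m x
  have key2 : (Algebra.TensorProduct.lift f g hcm).toRingHom (m ⊗ₜ x) = f m * g x := key
  rw [key2]
  rfl

theorem kz_TWR : ST_TWR.{u} := by
  intro E M N X _ _ _ _ _ _ _ _ _ T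
  obtain ⟨ρ, hρ⟩ := twr_act E M N X T.V T.nx T.ee
  letI iXV : Module (M ⊗[E] X) T.V := Module.compHom T.V ρ
  have hs : ∀ (x : M ⊗[E] X) (v : T.V), x • v = ρ x v := fun x v => rfl
  have hs1 : ∀ (x : X) (v : T.V), ((1 : M) ⊗ₜ[E] x : M ⊗[E] X) • v = x • v := by
    intro x v
    rw [hs, hρ, map_one, one_smul]
  let T' : TW M N (M ⊗[E] X) :=
    { B := T.B
      V := T.V
      R := fun g => T.R (g.restrictScalars E)
      U := fun g h => T.U (g.restrictScalars E) (h.restrictScalars E)
      nt := T.nt
      nx := fun n x v => by rw [hs, hs, map_smul]
      nb := T.nb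
      xb := fun x b v => by
        induction x using TensorProduct.induction_on with
        | zero => rw [zero_smul, zero_smul, smul_zero]
        | tmul m x => rw [hs, hs, hρ, hρ, T.xb, T.nb]
        | add x y hx hy => rw [add_smul, add_smul, smul_add, hx, hy]
      ee := fun m v => by
        have h1 : algebraMap M (M ⊗[E] X) m = m ⊗ₜ 1 := rfl
        rw [h1, hs, hρ, one_smul]
      bn := T.bn
      sm := fun W h1 h2 => T.sm W h1 (fun x w hw => by
        rw [← hs1 x w]
        exact h2 _ w hw)
      full := fun f h1 h2 => T.full f h1 (fun x v => by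
        rw [← hs1 x v, h2, hs1])
      rn := fun g n v => T.rn _ n v
      rx := fun g x v => by
        induction x using TensorProduct.induction_on with
        | zero => rw [zero_smul, zero_smul, map_zero]
        | tmul m x =>
          rw [hs, hs, hρ, hρ, T.rn, T.rx]
          have h1 : (AlgEquiv.restrictScalars E g) (algebraMap M N m) = algebraMap M N m :=
            g.commutes m
          rw [h1]
        | add x y hx hy => rw [add_smul, add_smul, map_add, hx, hy]
      co := fun g h v => T.co _ _ v }
  exact ⟨T', AlgEquiv.refl, fun g h => rfl⟩

end Pool.Agent.Helper44.KZ
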