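import Pool.Agent.Helper44.KZ.TWC

/-! module TWZ -/

namespace Pool.Agent.Helper44.KZ

open Pool.Agent.Helper91.KZ Polynomial TensorProduct

universe u

set_option linter.style.haveILetI false

theorem kz_TWZ (hTWB : ST_TWB.{u}) (hNRM : ST_NRM.{u}) (hNSC : ST_NSC.{u}) : ST_TWZ.{u} := by
  intro E N X Δ _ _ _ _ _ _ _ _ _ _ T r p hcor hp hkp
  obtain ⟨-, -, hDA, hKPB, hU0⟩ := hTWB E N X Δ r T hcor
  choose θ hθ1 hθ2 using fun g => tw_theta T g (T.R g) (T.rn g) (T.rx g)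
  have hid : ∀ g h k, θ g (T.U h k) * T.U g (h * k) = T.U g h * T.U (g * h) k := by
    intro g h k
    apply tw_faith T
    intro w
    obtain ⟨v, rfl⟩ := (T.R (g * h * k)).surjective w
    have e1 : T.R g (T.R h (T.R k v)) = (T.U g h * T.U (g * h) k) • T.R (g * h * k) v := by
      rw [T.co g h, T.co (g * h) k, mul_smul]
    have e2 : T.R g (T.R h (T.R k v)) = (θ g (T.U h k) * T.U g (h * k)) • T.R (g * h * k) v := by
      rw [T.co h k, hθ1, T.co g (h * k), mul_smul, mul_assoc]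
    rw [← e1, ← e2]
  haveI : Finite (N ≃ₐ[E] N) := inferInstance
  let A1 : Set T.B := Set.range fun x : (N ≃ₐ[E] N) × (N ≃ₐ[E] N) => T.U x.1 x.2
  let A3 : Set T.B := Set.range fun x : (N ≃ₐ[E] N) × (N ≃ₐ[E] N) × (N ≃ₐ[E] N) =>
    θ x.1 (T.U x.2.1 x.2.2)
  have hfin : (A1 ∪ A3).Finite := (Set.finite_range _).union (Set.finite_range _)
  have hne : ∀ x ∈ hfin.toFinset, x ≠ 0 := by
    intro x hx
    rw [Set.Finite.mem_toFinset] at hx
    rcases hx with ⟨y, rfl⟩ | ⟨y, rfl⟩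
    · exact hU0 _ _
    · intro h1
      exact hU0 y.2.1 y.2.2 ((θ y.1).injective (by rw [map_zero]; exact h1))
  obtain ⟨q₀, hq0, hpq, hq⟩ := hNRM N T.B p hp hDA.alg (hKPB p 0 hkp) hfin.toFinset hne
  refine ⟨q₀, hq0, hpq, fun q hqq _ => ?_⟩
  have hm := hq q hqq
  have m1 : ∀ g h, T.U g h ∈ hfin.toFinset := by
    intro g h
    rw [Set.Finite.mem_toFinset]
    exact Or.inl ⟨(g, h), rfl⟩
  have m3 : ∀ g h k, θ g (T.U h k) ∈ hfin.toFinset := by
    intro g h k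
    rw [Set.Finite.mem_toFinset]
    exact Or.inr ⟨(g, h, k), rfl⟩
  refine ⟨fun g h => (hm _ (m1 g h)).2.1, fun g h k => ?_⟩
  have e1 := (hm _ (m3 g h k)).2.2 _ (m1 g (h * k))
  have e2 := (hm _ (m1 g h)).2.2 _ (m1 (g * h) k)
  have e4 := ((hNSC N T.B).2.1 (θ g) g.toRingEquiv (fun n => hθ2 g n) (T.U h k)
    (hDA.alg _)).2 q
  have e6 : g.toRingEquiv (NN N q (T.U h k)) = g (NN N q (T.U h k)) := rfl
  rw [← e6, ← e4, ← e1, hid, e2]

end Pool.Agent.Helper44.KZ
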