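import Pool.Agent.Helper91.KZ.StL

/-! module UL -/

namespace Pool.Agent.Helper44.KZ

open Pool.Agent.Helper91.KZ Polynomial TensorProduct
open scoped PowerSeries

universe u

set_option linter.style.haveILetI false

theorem ul_map_coe {K A : Type u} [Field K] [Ring A] [Algebra K A] (φ : K[X]) :
    PowerSeries.map (algebraMap K A) (φ : K⟦X⟧) = ((φ.map (algebraMap K A) : A[X]) : A⟦X⟧) := by
  ext m
  rw [PowerSeries.coeff_map, Polynomial.coeff_coe, Polynomial.coeff_coe, Polynomial.coeff_map]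

theorem kz_UL (hCMP : ST_CMP.{u}) (hIND : ST_IND.{u}) : ST_UL.{u} := by
  intro K A _ _ _ _ z P hGM hu hP0
  have hZu : IsUnit (z : A⟦X⟧) := by
    rw [PowerSeries.isUnit_iff_constantCoeff, Polynomial.constantCoeff_coe]
    exact hu
  obtain ⟨u, hu⟩ := hZu
  have hZW : (z : A⟦X⟧) * (↑u⁻¹ : A⟦X⟧) = 1 := by rw [← hu]; exact u.mul_inv
  have hWZ : (↑u⁻¹ : A⟦X⟧) * (z : A⟦X⟧) = 1 := by rw [← hu]; exact u.inv_mul
  have hcomm : Commute (z : A⟦X⟧) (↑u⁻¹ : A⟦X⟧) := by
    unfold Commute SemiconjBy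
    rw [hZW, hWZ]
  have hpow1 : ∀ j, (z : A⟦X⟧) ^ j * (↑u⁻¹ : A⟦X⟧) ^ j = 1 := by
    intro j
    rw [← hcomm.mul_pow, hZW, one_pow]
  have hpow2 : ∀ j, (↑u⁻¹ : A⟦X⟧) ^ j * (z : A⟦X⟧) ^ j = 1 := by
    intro j
    rw [← hcomm.symm.mul_pow, hWZ, one_pow]
  set n := P.natDegree with hn
  -- the relation as power series
  have hrel : ∑ j ∈ Finset.range (n + 1),
      PowerSeries.map (algebraMap K A) (P.coeff j : K⟦X⟧) * (z : A⟦X⟧) ^ j = 0 := by
    have h1 := hGM.root
    unfold ev at h1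
    rw [eval₂_eq_sum_range] at h1
    have h2 := congrArg (Polynomial.coeToPowerSeries.ringHom : A[X] →+* A⟦X⟧) h1
    rw [map_zero, map_sum] at h2
    rw [← h2]
    refine Finset.sum_congr rfl fun j _ => ?_
    rw [map_mul, map_pow, Polynomial.coeToPowerSeries.ringHom_apply,
      Polynomial.coeToPowerSeries.ringHom_apply, ul_map_coe]
    rfl
  have hrel2 : ∑ i ∈ Finset.range (n + 1),
      PowerSeries.map (algebraMap K A) (P.coeff (n - i) : K⟦X⟧) * (↑u⁻¹ : A⟦X⟧) ^ i = 0 := by
    have h1 : ∑ j ∈ Finset.range (n + 1),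
      PowerSeries.map (algebraMap K A) (P.coeff j : K⟦X⟧) * (↑u⁻¹ : A⟦X⟧) ^ (n - j) = 0 := by
      have h2 := congrArg (fun v : A⟦X⟧ => v * (↑u⁻¹ : A⟦X⟧) ^ n) hrel
      simp only [zero_mul, Finset.sum_mul] at h2
      rw [← h2]
      refine Finset.sum_congr rfl fun j hj => ?_
      have hj' : j ≤ n := Nat.lt_succ_iff.mp (Finset.mem_range.mp hj)
      have h3 : (↑u⁻¹ : A⟦X⟧) ^ n = (↑u⁻¹ : A⟦X⟧) ^ j * (↑u⁻¹ : A⟦X⟧) ^ (n - j) := by
        rw [← pow_add]
        congr 1
        omega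
      rw [h3, mul_assoc, ← mul_assoc ((z : A⟦X⟧) ^ j), hpow1, one_mul]
    rw [← h1, ← Finset.sum_range_reflect]
    refine Finset.sum_congr rfl fun j hj => ?_
    have hj' : j ≤ n := Nat.lt_succ_iff.mp (Finset.mem_range.mp hj)
    have e1 : n + 1 - 1 - j = n - j := by omega
    have e2 : n - (n - j) = j := by omega
    rw [e1, e2]
  have hex : ∃ j, (P.coeff j).coeff 0 ≠ 0 := by
    refine ⟨n, ?_⟩
    have h1 : P.coeff n = 1 := hGM.mon.coeff_natDegree
    rw [h1]
    simp
  classical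
  set j0 := Nat.find hex with hj0
  have hj0n : j0 ≤ n := by
    apply Nat.find_min'
    have h1 : P.coeff n = 1 := hGM.mon.coeff_natDegree
    rw [h1]
    simp
  have hj0s := Nat.find_spec hex
  rw [← hj0] at hj0s
  have hj00 : j0 ≠ 0 := by
    intro h
    rw [h] at hj0s
    exact hj0s hP0
  have hmin : ∀ j, j < j0 → (P.coeff j).coeff 0 = 0 := by
    intro j hj
    by_contra h
    exact Nat.find_min hex hj h
  set d := n - j0 with hd
  have hdn : d ≤ n := by omega
  obtain ⟨b, hb⟩ := hCMP K A n d (↑u⁻¹ : A⟦X⟧) (fun i => (P.coeff (n - i) : K⟦X⟧)) hdn hrel2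
    (by
      rw [Polynomial.constantCoeff_coe]
      have : n - d = j0 := by omega
      rw [this]
      exact hj0s)
    (by
      intro j h1 h2
      rw [Polynomial.constantCoeff_coe]
      exact hmin _ (by omega))
  -- multiply by z ^ d
  have hone : ∑ i ∈ Finset.range d,
      PowerSeries.map (algebraMap K A) (b i) * (z : A⟦X⟧) ^ (d - i) = 1 := by
    have h2 := congrArg (fun v : A⟦X⟧ => v * (z : A⟦X⟧) ^ d) hb
    simp only [Finset.sum_mul, hpow2] at h2
    rw [h2]
    refine Finset.sum_congr rfl fun j hj => ?_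
    have hj' : j < d := Finset.mem_range.mp hj
    have h3 : (z : A⟦X⟧) ^ d = (z : A⟦X⟧) ^ j * (z : A⟦X⟧) ^ (d - j) := by
      rw [← pow_add]
      congr 1
      omega
    rw [h3, mul_assoc, ← mul_assoc ((↑u⁻¹ : A⟦X⟧) ^ j), hpow2, one_mul]
  let F : ℕ → K⟦X⟧ := fun k => if k = 0 then -1 else if k ≤ d then b (d - k) else 0
  have hF := hIND K A z P hGM (fun k => F k) (by
    have h1 : ∑ k : Fin P.natDegree, PowerSeries.map (algebraMap K A) (F k) *
        (z : A⟦X⟧) ^ (k : ℕ) = ∑ k ∈ Finset.range n, PowerSeries.map (algebraMap K A) (F k) *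
        (z : A⟦X⟧) ^ k := by
      rw [Finset.sum_range]
    rw [h1]
    have h2 : ∑ k ∈ Finset.range (d + 1), PowerSeries.map (algebraMap K A) (F k) *
        (z : A⟦X⟧) ^ k = ∑ k ∈ Finset.range n, PowerSeries.map (algebraMap K A) (F k) *
        (z : A⟦X⟧) ^ k := by
      apply Finset.sum_subset
      · intro x hx
        rw [Finset.mem_range] at hx ⊢
        omega
      · intro x _ hx
        rw [Finset.mem_range] at hx
        have e1 : F x = 0 := by
          change (if x = 0 then (-1 : K⟦X⟧) else if x ≤ d then b (d - x) else 0) = 0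
          rw [if_neg (by omega), if_neg (by omega)]
        rw [e1, map_zero, zero_mul]
    rw [← h2, Finset.sum_range_succ']
    have e0 : F 0 = -1 := by
      change (if (0 : ℕ) = 0 then (-1 : K⟦X⟧) else _) = -1
      rw [if_pos rfl]
    rw [e0, pow_zero, mul_one, map_neg, map_one]
    have h3 : ∑ k ∈ Finset.range d, PowerSeries.map (algebraMap K A) (F (k + 1)) *
        (z : A⟦X⟧) ^ (k + 1) = 1 := by
      rw [← hone, ← Finset.sum_range_reflect]
      refine Finset.sum_congr rfl fun k hk => ?_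
      have hk' : k < d := Finset.mem_range.mp hk
      have e1 : F (d - 1 - k + 1) = b k := by
        change (if d - 1 - k + 1 = 0 then (-1 : K⟦X⟧) else if d - 1 - k + 1 ≤ d then
          b (d - (d - 1 - k + 1)) else 0) = b k
        rw [if_neg (by omega), if_pos (by omega)]
        congr 1
        omega
      have e2 : d - 1 - k + 1 = d - k := by omega
      rw [e1, e2]
    rw [h3]
    exact add_neg_cancel 1)
  have hn0 : 0 < P.natDegree := by omega
  have h4 := congrFun hF ⟨0, hn0⟩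
  change F 0 = 0 at h4
  have e0 : F 0 = -1 := by
    change (if (0 : ℕ) = 0 then (-1 : K⟦X⟧) else _) = -1
    rw [if_pos rfl]
  rw [e0, neg_eq_zero] at h4
  exact one_ne_zero h4

end Pool.Agent.Helper44.KZ
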